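import Mathlib
import Pool.Agent.BoltzD.Top.Uniq
import Pool.Agent.MP_187b32_an.PD.All

/-! Implosion for the non-cutoff Boltzmann equation in every dimension `d ≥ 2`. -/

set_option autoImplicit false

open Pool.Agent.BoltzD.Stmt

namespace Pool.Agent.Results.MP_187b32_an.Implosion

theorem result (d : ℕ) (hd : 2 ≤ d) :
    ∃ (γ s : ℝ) (B : ℝ → ℝ → ℝ), 0 < s ∧ s < 1 ∧ NonCutoff d γ s B ∧
      ∃ (T : ℝ) (f : ℝ → Rd d → Rd d → ℝ) (x₀ : Rd d), 0 < T ∧ Admissible (f 0) ∧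
        ClassicalSol B T f ∧ Smooth T f ∧ Unique B T f ∧ Implosion T f x₀ :=
  Pool.Agent.BoltzD.main3_of_both Pool.Agent.MP_187b32_an.PD.both_all d hd

end Pool.Agent.Results.MP_187b32_an.Implosion
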