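import Mathlib
import Pool.Agent.BoltzM.Top.All
import Pool.Agent.BoltzM.Prof.Main

/-! Implosion for the non-cutoff Boltzmann equation with `0 ≤ γ + 2 s ≤ 2`, in every dimension
`d ≥ 3`. -/

set_option autoImplicit false

open Pool.Agent.BoltzD.Stmt

namespace Pool.Agent.Results.MP_187b32_an.ImplosionRange

theorem result (d : ℕ) (hd : 3 ≤ d) :
    ∃ (γ s : ℝ) (B : ℝ → ℝ → ℝ), 0 < s ∧ s < 1 ∧ 0 ≤ γ + 2 * s ∧ γ + 2 * s ≤ 2 ∧
      NonCutoff d γ s B ∧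
      ∃ (T : ℝ) (f : ℝ → Rd d → Rd d → ℝ) (x₀ : Rd d), 0 < T ∧ Admissible (f 0) ∧
        ClassicalSol B T f ∧ Unique B T f ∧ Implosion T f x₀ :=
  @Pool.Agent.BoltzM.main_of_m1 ⟨d, by omega⟩ (@Pool.Agent.BoltzM.m1M ⟨d, by omega⟩ hd)

end Pool.Agent.Results.MP_187b32_an.ImplosionRange
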